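import Pool.Agent.H45.EGH.S2

/-!
# EGH, row RE6: a reducible quadric, six quadrics
-/

set_option autoImplicit false

namespace Pool.EGH

/-- The finite check. -/
theorem re6_num : ∀ D < 11, ∀ a < 11, ∀ b < 11, a ≤ D → b ≤ D →
    min (b2 (D - a) + min (a.choose 2) (D - b)) (b2 (D - b) + min (b.choose 2) (D - a)) ≤
      b2 D := by
  decide

/-- RE6: a reducible quadric, six quadrics. -/
theorem t_re6 (hclb : CLBStmt) (hhe1 : HE1Stmt) (he52 : E52Stmt) : RE6Stmt := by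
  intro K _ _ N Q I l m hQ hI hQI hl hm hlQ hmQ hlm h10
  have hml : m * l ∈ I := by rw [mul_comm]; exact hlm
  have : Infinite K := IsAlgClosed.instInfinite
  obtain ⟨a1, a2, a3, a4, a5, Q1, a6, a7⟩ := hclb K N 5 Q I l m hQ hI hQI hl hm hlQ hlm
  obtain ⟨c1, c2, c3, c4, c5, Q2, c6, c7⟩ := hclb K N 5 Q I m l hQ hI hQI hm hl hmQ hml
  have e1 := a1 1
  have e2 := a1 2
  have f1 := c1 1
  have f2 := c1 2
  simp only [Nat.reduceAdd] at e1 e2 f1 f2
  have g1 := he52 K N Q1 _ a6 a5 a7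
  have g2 := he52 K N Q2 _ c6 c5 c7
  have k1 := hhe1 K N 6 Q _ hQ a3 a4
  have k2 := hhe1 K N 6 Q _ hQ c3 c4
  have m1 := a2 2
  have m2 := c2 2
  have d1 : hf (I ⊔ Ideal.span {l}) 2 = hf I 2 - hf (clI I l) 1 := by omega
  have d2 : hf (I ⊔ Ideal.span {m}) 2 = hf I 2 - hf (clI I m) 1 := by omega
  rw [d1] at g1 m2
  rw [d2] at g2 m1
  have h := re6_num (hf I 2) (by omega) (hf (clI I l) 1) (by omega) (hf (clI I m) 1) (by omega)
    (by omega) (by omega)
  have h1 : hf I 3 ≤ b2 (hf I 2 - hf (clI I l) 1) +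
      min ((hf (clI I l) 1).choose 2) (hf I 2 - hf (clI I m) 1) := by
    rw [← e2]
    exact Nat.add_le_add g1 (le_min k1 m1)
  have h2 : hf I 3 ≤ b2 (hf I 2 - hf (clI I m) 1) +
      min ((hf (clI I m) 1).choose 2) (hf I 2 - hf (clI I l) 1) := by
    rw [← f2]
    exact Nat.add_le_add g2 (le_min k2 m2)
  exact (le_min h1 h2).trans h

end Pool.EGH
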